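import Mathlib

/-!
The composite number `n = 4125441 = 3 · 17 · 23 · 3517` satisfies `φ₃(n) = 825088` and
`n - 1 = 5 · 825088`, and it is not one of the thirteen known exceptions.
-/

namespace Pool.Agent.Results.MP_3af439_nt.Counterexample

/-- `φ_e(n)`: the number of integers `1 ≤ i ≤ ⌊n/e⌋` with `gcd(i, n) = 1`. -/
def phiE (e n : ℕ) : ℕ := ((Finset.Icc 1 (n / e)).filter (fun i => Nat.gcd i n = 1)).card

/-- The thirteen exceptions listed in the problem. -/
def E : Finset ℕ := {4, 6, 8, 9, 12, 16, 21, 65, 425, 1729, 3201, 3531, 22865}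

/-- the number of `1 ≤ i ≤ x` divisible by no member of `L` -/
def cnt (L : List ℕ) (x : ℕ) : ℕ :=
  ((Finset.Icc 1 x).filter (fun i => ∀ q ∈ L, ¬ q ∣ i)).card

/-- inclusion-exclusion -/
def ie : List ℕ → ℕ → ℕ
  | [], x => x
  | p :: L, x => ie L x - ie L (x / p)

lemma cnt_cons (p : ℕ) (L : List ℕ) (hp : p.Prime) (hL : ∀ q ∈ L, q.Prime ∧ q ≠ p) (x : ℕ) :
    cnt (p :: L) x + cnt L (x / p) = cnt L x := by
  have hp0 : 0 < p := hp.pos
  have h1 : (Finset.Icc 1 x).filter (fun i => ∀ q ∈ L, ¬ q ∣ i) =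
      (Finset.Icc 1 x).filter (fun i => ∀ q ∈ (p :: L), ¬ q ∣ i) ∪
        ((Finset.Icc 1 (x / p)).filter (fun i => ∀ q ∈ L, ¬ q ∣ i)).image (fun j => p * j) := by
    ext i
    simp only [Finset.mem_filter, Finset.mem_Icc, List.mem_cons, forall_eq_or_imp,
      Finset.mem_union, Finset.mem_image]
    constructor
    · rintro ⟨⟨h1, h2⟩, h3⟩
      by_cases hpi : p ∣ i
      · right
        obtain ⟨j, rfl⟩ := hpi
        refine ⟨j, ⟨⟨?_, ?_⟩, ?_⟩, rfl⟩
        · rcases Nat.eq_zero_or_pos j with h | h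
          · rw [h] at h1; omega
          · exact h
        · rw [Nat.le_div_iff_mul_le hp0, mul_comm]; exact h2
        · intro q hq hqj
          exact h3 q hq (hqj.mul_left p)
      · left
        exact ⟨⟨h1, h2⟩, hpi, h3⟩
    · rintro (⟨h1, _, h3⟩ | ⟨j, ⟨⟨h1, h2⟩, h3⟩, rfl⟩)
      · exact ⟨h1, h3⟩
      · refine ⟨⟨Nat.mul_pos hp0 h1, ?_⟩, ?_⟩
        · rw [Nat.le_div_iff_mul_le hp0, mul_comm] at h2; exact h2
        · intro q hq hqj
          rcases (hL q hq).1.dvd_mul.1 hqj with h | h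
          · exact (hL q hq).2 ((Nat.prime_dvd_prime_iff_eq (hL q hq).1 hp).1 h)
          · exact h3 q hq h
  have h2 : Disjoint ((Finset.Icc 1 x).filter (fun i => ∀ q ∈ (p :: L), ¬ q ∣ i))
      (((Finset.Icc 1 (x / p)).filter (fun i => ∀ q ∈ L, ¬ q ∣ i)).image (fun j => p * j)) := by
    rw [Finset.disjoint_left]
    intro i hi hi'
    simp only [Finset.mem_filter, List.mem_cons, forall_eq_or_imp] at hi
    rw [Finset.mem_image] at hi'
    obtain ⟨j, _, rfl⟩ := hi'
    exact hi.2.1 (dvd_mul_right p j)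
  have h3 : (((Finset.Icc 1 (x / p)).filter (fun i => ∀ q ∈ L, ¬ q ∣ i)).image
      (fun j => p * j)).card = cnt L (x / p) := by
    rw [Finset.card_image_of_injective _ (fun a b h => Nat.eq_of_mul_eq_mul_left hp0 h)]
    rfl
  rw [cnt, ← h3, ← Finset.card_union_of_disjoint h2, ← h1, cnt]

lemma cnt_eq_ie : ∀ (L : List ℕ), (∀ q ∈ L, q.Prime) → L.Nodup → ∀ x, cnt L x = ie L x := by
  intro L
  induction L with
  | nil => intro _ _ x; simp [cnt, ie]
  | cons p L ih =>
    intro hP hN x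
    rw [List.nodup_cons] at hN
    have hL : ∀ q ∈ L, q.Prime := fun q hq => hP q (List.mem_cons_of_mem _ hq)
    have h := cnt_cons p L (hP p List.mem_cons_self)
      (fun q hq => ⟨hL q hq, fun he => hN.1 (he ▸ hq)⟩) x
    rw [ih hL hN.2, ih hL hN.2] at h
    rw [ie]
    omega

lemma primes4 : ∀ q ∈ [3, 17, 23, 3517], Nat.Prime q := by
  intro q hq
  simp only [List.mem_cons, List.not_mem_nil, or_false] at hq
  rcases hq with rfl | rfl | rfl | rfl <;> norm_num

lemma coprime_iff (i : ℕ) : Nat.gcd i 4125441 = 1 ↔ ∀ q ∈ [3, 17, 23, 3517], ¬ q ∣ i := by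
  rw [show (4125441 : ℕ) = 3 * (17 * (23 * 3517)) by norm_num]
  change Nat.Coprime _ _ ↔ _
  rw [Nat.coprime_mul_iff_right, Nat.coprime_mul_iff_right, Nat.coprime_mul_iff_right]
  rw [Nat.coprime_comm, Nat.coprime_comm (n := i) (m := 17), Nat.coprime_comm (n := i) (m := 23),
    Nat.coprime_comm (n := i) (m := 3517)]
  rw [Nat.Prime.coprime_iff_not_dvd (by norm_num), Nat.Prime.coprime_iff_not_dvd (by norm_num),
    Nat.Prime.coprime_iff_not_dvd (by norm_num), Nat.Prime.coprime_iff_not_dvd (by norm_num)]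
  simp

lemma phi3_value : phiE 3 4125441 = 825088 := by
  have h : phiE 3 4125441 = cnt [3, 17, 23, 3517] 1375147 := by
    have hx : (4125441 : ℕ) / 3 = 1375147 := by norm_num
    have hf : (Finset.Icc 1 1375147).filter (fun i => Nat.gcd i 4125441 = 1) =
        (Finset.Icc 1 1375147).filter (fun i => ∀ q ∈ [3, 17, 23, 3517], ¬ q ∣ i) :=
      Finset.filter_congr (fun i _ => coprime_iff i)
    rw [phiE, cnt, hx, hf]
  rw [h, cnt_eq_ie _ primes4 (by decide)]
  decide

/-- `n = 4125441` is composite, is not one of the thirteen listed exceptions, and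
`φ₃(n) = 825088` divides `n - 1`. -/
theorem result :
    (4 ≤ 4125441 ∧ ¬ Nat.Prime 4125441) ∧ 4125441 ∉ E ∧ phiE 3 4125441 ∣ 4125441 - 1 ∧
      ¬ ∀ n : ℕ, 4 ≤ n → ¬ n.Prime → n ∉ E → ¬ phiE 3 n ∣ n - 1 := by
  have h1 : ¬ Nat.Prime 4125441 := by norm_num
  have h2 : 4125441 ∉ E := by decide
  have h3 : phiE 3 4125441 ∣ 4125441 - 1 := by
    rw [phi3_value]; norm_num
  exact ⟨⟨by norm_num, h1⟩, h2, h3, fun h => h 4125441 (by norm_num) h1 h2 h3⟩

end Pool.Agent.Results.MP_3af439_nt.Counterexample
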